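import Pool.Agent.H.MP_668c10_co.E

set_option autoImplicit false

namespace Pool.Agent.Results.MP_668c10_co.DesWilfQ1

open Pool.Agent.H.MP_668c10_co

theorem result : ∀ n : ℕ, F n ![1, 2, 4, 3] = F n ![3, 4, 1, 2] := Q1

end Pool.Agent.Results.MP_668c10_co.DesWilfQ1
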