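import Pool.Agent.H.MP_668c10_co.E

set_option autoImplicit false

namespace Pool.Agent.Results.MP_668c10_co.DesWilfQ2

open Pool.Agent.H.MP_668c10_co

theorem result : ∀ n : ℕ, F n ![1, 3, 4, 2] = F n ![2, 4, 1, 3] := Q2

end Pool.Agent.Results.MP_668c10_co.DesWilfQ2
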